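import Pool.Agent.Helper86.NB.St

set_option autoImplicit false

namespace Pool.Agent.Helper21.NB

open Filter Topology Pool.Agent.Helper86.NB Pool.Agent.Helper86.ML Pool.Agent.Helper67.Cour

theorem JIN_FE_dl (G : Type) [Group G] : FE (dl G) := by
  classical
  have h : (fun x : G => Real.negMulLog (dl G x)) = fun _ => 0 := by
    funext x
    unfold dl
    split_ifs <;> simp
  unfold FE
  rw [h]
  exact summable_zero

theorem JIN_FE_pw (h8 : StFEC) {G : Type} [Group G] {ν : G → ℝ} (hν : Prob ν) (hF : FE ν) (n : ℕ) :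
    FE (pw ν n) := by
  induction n with
  | zero => exact JIN_FE_dl G
  | succ n ih =>
    rw [pw_succ]
    exact (h8 G ν (pw ν n) hν (pw_prob hν n) hF ih).1

theorem hJIN (h1 : StQPW) (h2 : StQEN) (h3 : StRIN) (h4 : StITR) (h5 : StLAZ) (h6 : StSMO)
    (h7 : StEXP) (h8 : StFEC) (h9 : StCR2) (h10 : StPOS) : StJIN := by
  intro G _ K₁ K₂ _ _ μ hK hμ hL
  have hν : Courteous (lazy μ) := (h5 G μ hμ).1
  have hμP : Prob μ := Courteous.prob hμ
  have hνP : Prob (lazy μ) := Courteous.prob hν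
  have hνF : FE (lazy μ) := by
    obtain ⟨lam, hl0, hl1, hl2⟩ := h6 G (lazy μ) hν
    exact (h7 G (lazy μ) lam hνP hl0 hl1 hl2).1
  have hFE : ∀ n, FE (pw (lazy μ) n) := JIN_FE_pw h8 hνP hνF
  have hPr : ∀ n, Prob (pw (lazy μ) n) := fun n => pw_prob hνP n
  -- the conditional entropy
  set F : ℕ → ℝ := fun n => Ent (pw (lazy μ) n) - Ent (quot K₁ (pw (lazy μ) n)) with hFdef
  have hF0 : ∀ n, 0 ≤ F n := by
    intro n
    have := (h2.1 G K₁ (pw (lazy μ) n) (hPr n) (hFE n)).2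
    simp only [hFdef]
    linarith
  have hF1 : ∀ n, F n ≤ Ent (pw (lazy (quot K₂ μ)) n) := by
    intro n
    have e1 := h2.2 G K₁ K₂ (pw (lazy μ) n) hK (hPr n) (hFE n)
    have e2 : quot K₂ (pw (lazy μ) n) = pw (lazy (quot K₂ μ)) n := by
      obtain ⟨-, -, -, q4, q5⟩ := h1 G K₂
      rw [q5 (lazy μ) hνP n, q4 μ hμP]
    rw [e2] at e1
    simp only [hFdef]
    linarith
  have hF2 : ∀ δ : ℝ, 0 < δ → ∃ N : ℕ, ∀ n : ℕ, N ≤ n → F n ≤ δ * n := by
    intro δ hδ
    obtain ⟨N, hN⟩ := h9 (G ⧸ K₂) (quot K₂ μ) (quot_courteous K₂ hμ) hL δ hδ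
    exact ⟨N, fun n hn => (hF1 n).trans (hN n hn)⟩
  -- the translates by `g` become close
  have key : ∀ g ∈ K₁, g ≠ 1 → ∀ ε : ℝ, 0 < ε → ∃ n : ℕ,
      l1 (tr g (pw (lazy μ) n)) (pw (lazy μ) n) < ε := by
    intro g hg hg1 ε hε
    by_contra hcon
    push Not at hcon
    obtain ⟨k, hk, hk1, hkg⟩ := h10 G μ hμ g
    set m : ℝ := min (pw (lazy μ) k 1) (pw (lazy μ) k g) with hm
    have hm0 : 0 < m := lt_min hk1 hkg
    have hstep : ∀ j : ℕ, F (k * j) + m * ε ^ 2 / 4 ≤ F (k * (j + 1)) := by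
      intro j
      have e := h3 G K₁ (pw (lazy μ) k) (pw (lazy μ) (k * j)) g m (hPr k) (hPr _) (hFE k) (hFE _)
        hg hg1 hm0.le (min_le_left _ _) (min_le_right _ _)
      have e2 : cv (pw (lazy μ) k) (pw (lazy μ) (k * j)) = pw (lazy μ) (k * (j + 1)) := by
        rw [← pw_add hνP]
        congr 1
        ring
      rw [e2] at e
      have e3 : ε ^ 2 ≤ l1 (tr g (pw (lazy μ) (k * j))) (pw (lazy μ) (k * j)) ^ 2 :=
        pow_le_pow_left₀ hε.le (hcon (k * j)) 2
      have e4 := mul_le_mul_of_nonneg_left e3 hm0.le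
      simp only [hFdef]
      linarith
    have hlow : ∀ j : ℕ, (j : ℝ) * (m * ε ^ 2 / 4) ≤ F (k * j) := by
      intro j
      induction j with
      | zero => simpa using hF0 0
      | succ j ih =>
        have := hstep j
        push_cast
        linarith
    have hk0 : (0 : ℝ) < k := by exact_mod_cast hk
    have hδ : 0 < m * ε ^ 2 / (8 * k) := by positivity
    obtain ⟨N, hN⟩ := hF2 _ hδ
    have h11 := hN (k * (N + 1)) (by nlinarith)
    have h12 := hlow (N + 1)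
    have h13 : m * ε ^ 2 / (8 * k) * ((k * (N + 1) : ℕ) : ℝ) = ((N + 1 : ℕ) : ℝ) * (m * ε ^ 2 / 8) := by
      push_cast
      field_simp
    rw [h13] at h11
    have h14 : 0 < ((N + 1 : ℕ) : ℝ) * (m * ε ^ 2 / 8) := by positivity
    have h15 : ((N + 1 : ℕ) : ℝ) * (m * ε ^ 2 / 4) = 2 * (((N + 1 : ℕ) : ℝ) * (m * ε ^ 2 / 8)) := by
      ring
    linarith
  -- bounded harmonic functions
  have fin : ∀ f : G → ℂ, Bdd f → Harm μ f → ∀ g ∈ K₁, ∀ x, f (x * g) = f x := by
    intro f hb hf g hg x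
    by_cases hg1 : g = 1
    · rw [hg1, mul_one]
    obtain ⟨C, hC⟩ := id hb
    have hC0 : 0 ≤ C := (norm_nonneg _).trans (hC 1)
    have hle : ∀ ε : ℝ, 0 < ε → ‖f (x * g) - f x‖ ≤ C * ε := by
      intro ε hε
      obtain ⟨n, hn⟩ := key g hg hg1 ε hε
      have e := h4.2.2 G (pw (lazy μ) n) f C (hPr n) hC (fun y => h4.1 G μ f hμ hb hf n y) x g
      exact e.trans (mul_le_mul_of_nonneg_left hn.le hC0)
    have h0 : ‖f (x * g) - f x‖ ≤ 0 := by
      apply le_of_forall_pos_le_add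
      intro ε hε
      have e := hle (ε / (C + 1)) (by positivity)
      have e2 : C * (ε / (C + 1)) ≤ ε := by
        rw [mul_div_assoc', div_le_iff₀ (by positivity)]
        nlinarith
      linarith
    exact sub_eq_zero.1 (norm_le_zero_iff.1 h0)
  intro g hg f hb hf x
  have e := fin f hb hf (x⁻¹ * g * x) (by
    have := Subgroup.Normal.conj_mem (inferInstance : K₁.Normal) g hg x⁻¹
    rwa [inv_inv] at this) x
  have e2 : x * (x⁻¹ * g * x) = g * x := by group
  rwa [e2] at e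

end Pool.Agent.Helper21.NB
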